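import Pool.Agent.Helper97.Speed.Unique

/-!
# The speed of simple random walk on hyperbolic half-planar triangulations exists

The definitions (half-planar triangulations as combinatorial maps, the law `ℍ_α`, simple random
walk) are in `Pool/Agent/Helper97/Speed/Defs.lean`.
-/

namespace Pool.Agent.Results.MP_f07f0f_pr.Speed

open MeasureTheory Filter Topology Pool.Agent.Helper97.Speed

/-- For `α ∈ (2/3, 1)` there is a deterministic constant `s`, depending only on `α`, such that for
almost every half-planar triangulation `h` of law `ℍ_α` and for simple random walk `x` on `h`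
started at the root vertex, almost surely `d(x n, root) / n` converges to `s`. -/
theorem result (α : ℝ) (h1 : 2 / 3 < α) (h2 : α < 1) :
    ∃ s : ℝ, ∀ P : Measure HalfPlane, IsHalfPlaneLaw α P →
      ∀ᵐ h ∂P, ∀ μ : Measure (ℕ → ℕ), IsProbabilityMeasure μ →
        IsSRW h.1 (h.1.org (h.1.bd 0)) μ →
        ∀ᵐ x ∂μ, Tendsto (fun n : ℕ => (h.1.dist (h.1.org (h.1.bd 0)) (x n) : ℝ) / n)
          atTop (𝓝 s) :=
  speed h1 h2

end Pool.Agent.Results.MP_f07f0f_pr.Speed
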